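import Pool.Agent.Lib.MP_064548_lc.One

set_option autoImplicit false

/-!
# MP_064548_lc: a finite-to-one Diophantine link from `K[W,Z]` to `K[Z]` with one parameter

For every finite field `K` there is a Diophantine relation `A ⊆ K[W,Z]²` such that every `f ∈ K[W,Z]` has some
`g ∈ K[Z]` with `(f, g) ∈ A`, and `(f, g) ∈ A` with `g ∈ K[Z]` forces `deg_W f ≤ deg g` and `deg_Z f ≤ deg g + 1`.
In particular for every `g ∈ K[Z]` only finitely many `f` satisfy `(f, g) ∈ A`.
-/

namespace Pool.Agent.Results.MP_064548_lc.OneParameterLink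

/-- The ring `K[W,Z]` of polynomials in two variables; the variable with index `0` is `W`, the variable with
index `1` is `Z`. -/
abbrev R2 (K : Type) [Field K] : Type := MvPolynomial (Fin 2) K

/-- The variable `Z` of `K[W,Z]`. -/
noncomputable def Z (K : Type) [Field K] : R2 K := MvPolynomial.X 1

/-- The element `g(Z)` of `K[W,Z]`, for a one variable polynomial `g` with coefficients in `K`. -/
noncomputable def inZ {K : Type} [Field K] (g : Polynomial K) : R2 K := Polynomial.aeval (Z K) g

/-- A relation `A ⊆ S^m` is Diophantine over the commutative ring `S` if there is a polynomial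
`P (x₁, …, x_m, y₁, …, y_k)` with coefficients in `S` such that `x ∈ A` if and only if `P (x, y) = 0` for some
`y₁, …, y_k ∈ S`. -/
def IsDiophantine (S : Type) [CommRing S] {m : ℕ} (A : Set (Fin m → S)) : Prop :=
  ∃ (k : ℕ) (P : MvPolynomial (Fin m ⊕ Fin k) S), ∀ x : Fin m → S,
    x ∈ A ↔ ∃ y : Fin k → S, MvPolynomial.eval (Sum.elim x y) P = 0

/-- **A one parameter finite-to-one Diophantine link from `K[W,Z]` to `K[Z]`.**  For every finite field `K` there is
a Diophantine relation `A` between two elements of `K[W,Z]` such that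

1. for every `f ∈ K[W,Z]` there is `g ∈ K[Z]` with `(f, g) ∈ A`;
2. for every `g ∈ K[Z]` the set of all `f ∈ K[W,Z]` with `(f, g) ∈ A` is finite;
3. more precisely, `(f, g) ∈ A` and `g ∈ K[Z]` imply `deg_W f ≤ deg g` and `deg_Z f ≤ deg g + 1`. -/
theorem result (K : Type) [Field K] [Finite K] :
    ∃ A : Set (Fin 2 → R2 K), IsDiophantine (R2 K) A ∧
      (∀ f : R2 K, ∃ g : Polynomial K, ![f, inZ g] ∈ A) ∧
      (∀ g : Polynomial K, {f : R2 K | ![f, inZ g] ∈ A}.Finite) ∧
      (∀ (f : R2 K) (g : Polynomial K), ![f, inZ g] ∈ A →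
        f.degreeOf 0 ≤ g.natDegree ∧ f.degreeOf 1 ≤ g.natDegree + 1) := by
  obtain ⟨k, P, h1, h2⟩ := Pool.Agent.DLink.One.main K
  refine ⟨{v | ∃ y : Fin k → R2 K, MvPolynomial.eval (Sum.elim v y) P = 0}, ⟨k, P, fun x => Iff.rfl⟩,
    h1, fun g => ?_, h2⟩
  exact (Pool.Agent.DLink.One.finite_degree (K := K) g.natDegree (g.natDegree + 1)).subset
    fun f hf => h2 f g hf

end Pool.Agent.Results.MP_064548_lc.OneParameterLink
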